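import Mathlib
import Pool.Agent.HU85.Pick

/-!
# The third coefficient: the analytic core

`χ : D → closed D` and `g` are holomorphic on the unit disc, and on `|z| = 1/4` the number
`z g(z)` lies in the disc with centre `1/15 + E(z)` and radius `8/15`, where
`E = (|χ|^2 + z χ' conj χ) / (16 - |χ|^2)`.  Then `|g'(0) + 2 g(0)^2| <= 10 + 6 e + e^2`,
`e = 1 - |χ(0)|`, as soon as `|g(0)| <= 2`.
-/

set_option autoImplicit false

open Complex Metric Set Filter Topology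
open scoped ComplexConjugate

namespace Pool.CSH3

open Pool.Agent.HU85

/-- lower bound of the modulus of a Schwarz function on `|z| = 1/4` -/
theorem low_bound {x b : ℝ} (hx0 : 0 ≤ x) (hx1 : x ≤ 1) (hb0 : 0 ≤ b) (hb1 : b ≤ 1)
    (h : 15 * (b - x) ^ 2 ≤ (1 - x ^ 2) * (1 - b ^ 2)) : 1 - (5 / 3) * (1 - b) ≤ x := by
  by_contra hc
  push Not at hc
  have h1 : (1 - x ^ 2) * (1 - b ^ 2) ≤ 4 * ((1 - x) * (1 - b)) := by
    have e1 : (1 - x ^ 2) * (1 - b ^ 2) = ((1 + x) * (1 + b)) * ((1 - x) * (1 - b)) := by ring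
    rw [e1]
    apply mul_le_mul_of_nonneg_right _ (mul_nonneg (by linarith) (by linarith))
    nlinarith
  have h2 : 0 < (b - x - (2 / 5) * (1 - x)) * (b - x + (2 / 5) * (1 - x)) := by
    apply mul_pos <;> nlinarith
  have h3 : (1 - x) * (1 - b) ≤ (1 - x) * ((3 / 5) * (1 - x)) := by
    apply mul_le_mul_of_nonneg_left _ (by linarith)
    linarith
  nlinarith

theorem E_upper {x : ℝ} (hx0 : 0 ≤ x) (hx1 : x ≤ 1) :
    (x ^ 2 + (4 / 15) * (x * (1 - x ^ 2))) / (16 - x ^ 2) ≤ 1 / 15 := by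
  have h1 : 0 < 16 - x ^ 2 := by nlinarith
  rw [div_le_iff₀ h1]
  have h2 : 0 ≤ (1 - x ^ 2) * (4 - x) := mul_nonneg (by nlinarith) (by linarith)
  nlinarith

theorem E_lower {x e : ℝ} (hx0 : 0 ≤ x) (hx1 : x ≤ 1) (he : 1 - (5 / 3) * e ≤ x) :
    1 / 15 - (3 / 10) * e ≤ (x ^ 2 - (4 / 15) * (x * (1 - x ^ 2))) / (16 - x ^ 2) := by
  have h1 : 0 < 16 - x ^ 2 := by nlinarith
  rw [le_div_iff₀ h1]
  obtain ⟨y, hy⟩ : ∃ y : ℝ, y = 1 - x := ⟨_, rfl⟩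
  have hx : x = 1 - y := by linarith
  have hy0 : 0 ≤ y := by linarith
  have hy1 : y ≤ 1 := by linarith
  have h2 : (1 / 15 - (3 / 10) * e) * (16 - x ^ 2)
      ≤ (1 / 15 - (9 / 50) * y) * (16 - x ^ 2) := by
    apply mul_le_mul_of_nonneg_right _ h1.le
    linarith
  refine h2.trans ?_
  rw [hx]
  have h3 : 0 ≤ y ^ 2 * (167 / 75 - (67 / 150) * y) := mul_nonneg (sq_nonneg _) (by linarith)
  nlinarith

/-- location of `E` on `|z| = 1/4` -/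
theorem E_mem {c d : ℂ} {e : ℝ} (hc : ‖c‖ ≤ 1) (hd : ‖d‖ ≤ (4 / 15) * (1 - ‖c‖ ^ 2))
    (he : 1 - (5 / 3) * e ≤ ‖c‖) :
    ‖(((‖c‖ : ℝ) : ℂ) ^ 2 + d * conj c) / (16 - ((‖c‖ : ℝ) : ℂ) ^ 2)
      - ((1 / 15 - (3 / 20) * e : ℝ) : ℂ)‖ ≤ (3 / 20) * e := by
  set x := ‖c‖ with hx
  have hx0 : 0 ≤ x := norm_nonneg _
  have h1 : 0 < 16 - x ^ 2 := by nlinarith
  have h1c : (16 - ((x : ℝ) : ℂ) ^ 2) ≠ 0 := by
    have : (16 - ((x : ℝ) : ℂ) ^ 2) = ((16 - x ^ 2 : ℝ) : ℂ) := by push_cast; ring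
    rw [this]; exact_mod_cast h1.ne'
  have e1 : (((x : ℝ) : ℂ) ^ 2 + d * conj c) / (16 - ((x : ℝ) : ℂ) ^ 2)
      - ((1 / 15 - (3 / 20) * e : ℝ) : ℂ)
      = ((x ^ 2 / (16 - x ^ 2) - (1 / 15 - (3 / 20) * e) : ℝ) : ℂ)
        + (d * conj c) / ((16 - x ^ 2 : ℝ) : ℂ) := by
    push_cast
    field_simp
    ring
  rw [e1]
  refine (norm_add_le _ _).trans ?_
  rw [Complex.norm_real, norm_div, norm_mul, Complex.norm_conj, Complex.norm_real,
    Real.norm_of_nonneg h1.le, ← hx, Real.norm_eq_abs]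
  have h2 : ‖d‖ * x / (16 - x ^ 2) ≤ ((4 / 15) * (x * (1 - x ^ 2))) / (16 - x ^ 2) := by
    apply div_le_div_of_nonneg_right _ h1.le
    nlinarith
  have h3 := E_upper hx0 hc
  have h4 := E_lower hx0 hc he
  rw [add_div] at h3
  rw [sub_div] at h4
  have h5 : |x ^ 2 / (16 - x ^ 2) - (1 / 15 - (3 / 20) * e)|
      ≤ (3 / 20) * e - ((4 / 15) * (x * (1 - x ^ 2))) / (16 - x ^ 2) := by
    rw [abs_le]
    constructor <;> linarith
  linarith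

end Pool.CSH3
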