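import Mathlib
import Pool.Agent.CSH3.Core

/-!
Coefficient bounds for `g` when `z g(z)` lies in a fixed disc on `|z| = 1/4`.
-/

set_option autoImplicit false

open Complex Metric Set Filter Topology
open scoped ComplexConjugate

namespace Pool.CSH3

open Pool.Agent.HU85

/-- maximum principle on `|z| ≤ 1/4` -/
theorem max_quarter {f : ℂ → ℂ} (df : DifferentiableOn ℂ f (closedBall 0 (1 / 4))) {M : ℝ}
    (h : ∀ z : ℂ, ‖z‖ = 1 / 4 → ‖f z‖ ≤ M) {z : ℂ} (hz : ‖z‖ ≤ 1 / 4) : ‖f z‖ ≤ M := by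
  have hcl : closure (ball (0 : ℂ) (1 / 4)) = closedBall 0 (1 / 4) :=
    closure_ball 0 (by norm_num)
  have hfr : frontier (ball (0 : ℂ) (1 / 4)) = sphere 0 (1 / 4) :=
    frontier_ball 0 (by norm_num)
  refine Complex.norm_le_of_forall_mem_frontier_norm_le (U := ball (0 : ℂ) (1 / 4))
    isBounded_ball (DifferentiableOn.diffContOnCl (by rw [hcl]; exact df)) ?_ ?_
  · intro w hw
    rw [hfr, mem_sphere_zero_iff_norm] at hw
    exact h w hw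
  · rw [hcl]; simpa using hz

theorem disc_key (C R : ℝ) (w : ℂ) (hD : 0 ≤ R ^ 2 - C ^ 2) (h : ‖w - C‖ ≤ R) :
    R * ‖w‖ ≤ ‖((R ^ 2 - C ^ 2 : ℝ) : ℂ) + C * w‖ := by
  have hR : 0 ≤ R := (norm_nonneg _).trans h
  have h1 : ‖w - C‖ ^ 2 ≤ R ^ 2 := pow_le_pow_left₀ (norm_nonneg _) h 2
  have h2 : ‖((R ^ 2 - C ^ 2 : ℝ) : ℂ) + C * w‖ ^ 2 - (R * ‖w‖) ^ 2
      = (R ^ 2 - C ^ 2) * (R ^ 2 - ‖w - C‖ ^ 2) := by
    obtain ⟨D, hDe⟩ : ∃ D : ℝ, D = R ^ 2 - C ^ 2 := ⟨_, rfl⟩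
    have h4 : ‖((D : ℝ) : ℂ) + C * w‖ ^ 2 = D ^ 2 + 2 * D * C * w.re + C ^ 2 * ‖w‖ ^ 2 := by
      rw [Complex.sq_norm, Complex.sq_norm, normSq_apply, normSq_apply]
      simp
      ring
    have h5 : ‖w - C‖ ^ 2 = ‖w‖ ^ 2 - 2 * C * w.re + C ^ 2 := by
      rw [Complex.sq_norm, Complex.sq_norm, normSq_apply, normSq_apply]
      simp
      ring
    rw [← hDe, h4, h5, hDe]
    ring
  have h3 : 0 ≤ (R ^ 2 - C ^ 2) * (R ^ 2 - ‖w - C‖ ^ 2) := mul_nonneg hD (by linarith)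
  refine (sq_le_sq₀ (mul_nonneg hR (norm_nonneg _)) (norm_nonneg _)).1 ?_
  linarith

theorem pick_disc {g : ℂ → ℂ} (dg : DifferentiableOn ℂ g (ball 0 1)) {C R : ℝ} (hR : 0 < R)
    (hCR : 2 * |C| < R) (h : ∀ z : ℂ, ‖z‖ = 1 / 4 → ‖z * g z - C‖ ≤ R) :
    R * ‖((R ^ 2 - C ^ 2 : ℝ) : ℂ) * deriv g 0 - C * g 0 ^ 2‖
      ≤ 16 * (R ^ 2 - C ^ 2) ^ 2 - R ^ 2 * ‖g 0‖ ^ 2 := by
  have hC0 : 0 ≤ |C| := abs_nonneg C
  have hCsq : C ^ 2 = |C| ^ 2 := (sq_abs C).symm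
  have hD : 0 < R ^ 2 - C ^ 2 := by rw [hCsq]; nlinarith
  have hsub : closedBall (0 : ℂ) (1 / 4) ⊆ ball 0 1 := closedBall_subset_ball (by norm_num)
  have dgc : DifferentiableOn ℂ g (closedBall 0 (1 / 4)) := dg.mono hsub
  have hf : ∀ z : ℂ, ‖z‖ ≤ 1 / 4 → ‖z * g z - C‖ ≤ R := fun z hz =>
    max_quarter (f := fun z => z * g z - C) ((differentiableOn_id.mul dgc).sub_const _) h hz
  have hden : ∀ z : ℂ, ‖z‖ ≤ 1 / 4 → ((R ^ 2 - C ^ 2 : ℝ) : ℂ) + C * (z * g z) ≠ 0 := by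
    intro z hz h0
    have h1 : ‖z * g z‖ ≤ |C| + R := by
      have : z * g z = (z * g z - C) + C := by ring
      rw [this]
      refine (norm_add_le _ _).trans ?_
      rw [Complex.norm_real, Real.norm_eq_abs]
      linarith [hf z hz]
    have h2 : ((R ^ 2 - C ^ 2 : ℝ) : ℂ) = -(C * (z * g z)) := eq_neg_of_add_eq_zero_left h0
    have h3 : R ^ 2 - C ^ 2 = |C| * ‖z * g z‖ := by
      have := congrArg norm h2
      rwa [norm_neg, norm_mul, Complex.norm_real, Complex.norm_real, Real.norm_of_nonneg hD.le,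
        Real.norm_eq_abs] at this
    have h4 : |C| * ‖z * g z‖ ≤ |C| * (|C| + R) := mul_le_mul_of_nonneg_left h1 hC0
    rw [hCsq] at h3
    nlinarith
  set T : ℂ → ℂ := fun z => R * g z / (4 * (((R ^ 2 - C ^ 2 : ℝ) : ℂ) + C * (z * g z))) with hT
  have hden4 : ∀ z : ℂ, ‖z‖ ≤ 1 / 4 → 4 * (((R ^ 2 - C ^ 2 : ℝ) : ℂ) + C * (z * g z)) ≠ 0 :=
    fun z hz => mul_ne_zero (by norm_num) (hden z hz)
  have dT : DifferentiableOn ℂ T (closedBall 0 (1 / 4)) := by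
    refine (dgc.const_mul _).div ((((differentiableOn_id.mul dgc).const_mul _).const_add
      _).const_mul _) ?_
    intro z hz
    exact hden4 z (by simpa using hz)
  have hT1 : ∀ z : ℂ, ‖z‖ ≤ 1 / 4 → ‖T z‖ ≤ 1 := by
    intro z hz
    refine max_quarter dT ?_ hz
    intro w hw
    have h1 := disc_key C R (w * g w) hD.le (h w hw)
    have h2 : 0 < ‖((R ^ 2 - C ^ 2 : ℝ) : ℂ) + C * (w * g w)‖ :=
      norm_pos_iff.2 (hden w hw.le)
    rw [norm_mul, hw] at h1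
    simp only [hT]
    rw [norm_div, norm_mul, norm_mul, Complex.norm_real, Real.norm_of_nonneg hR.le,
      div_le_one (by simpa using h2)]
    have h4 : ‖(4 : ℂ)‖ = 4 := by simp
    rw [h4]
    linarith
  have hq : ∀ w ∈ ball (0 : ℂ) 1, ‖w / 4‖ ≤ 1 / 4 := by
    intro w hw
    rw [mem_ball_zero_iff] at hw
    rw [norm_div]
    have h4 : ‖(4 : ℂ)‖ = 4 := by simp
    rw [h4]
    linarith
  have dφ : DifferentiableOn ℂ (fun w => T (w / 4)) (ball 0 1) := by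
    refine dT.comp (differentiableOn_id.div_const 4) ?_
    intro w hw
    simpa using hq w hw
  have hφ1 : ∀ w ∈ ball (0 : ℂ) 1, ‖T (w / 4)‖ ≤ 1 := fun w hw => hT1 _ (hq w hw)
  have hp := schwarz_pick dφ hφ1 (z := 0) (by simp)
  have h0b : (0 : ℂ) ∈ ball (0 : ℂ) 1 := by simp
  have hg : HasDerivAt g (deriv g 0) (0 / 4 : ℂ) := by
    rw [zero_div]; exact hasDerivAt_of dg h0b
  have hq4 : HasDerivAt (fun w : ℂ => w / 4) (1 / 4) 0 := (hasDerivAt_id 0).div_const 4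
  have hgq : HasDerivAt (fun w : ℂ => g (w / 4)) (deriv g 0 * (1 / 4)) 0 := hg.comp 0 hq4
  have hDc : ((R ^ 2 - C ^ 2 : ℝ) : ℂ) ≠ 0 := by exact_mod_cast hD.ne'
  have hφd : HasDerivAt (fun w => T (w / 4))
      (((R : ℂ) / 16) * (((R ^ 2 - C ^ 2 : ℝ) : ℂ) * deriv g 0 - C * g 0 ^ 2)
        / ((R ^ 2 - C ^ 2 : ℝ) : ℂ) ^ 2) 0 := by
    have h1 := (hgq.const_mul (R : ℂ)).div ((((hq4.mul hgq).const_mul (C : ℂ)).const_add
      ((R ^ 2 - C ^ 2 : ℝ) : ℂ)).const_mul 4) (by simpa using hden4 0 (by simp))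
    refine h1.congr_deriv ?_
    simp only [Pi.mul_apply, zero_div, zero_mul, mul_zero, add_zero]
    field_simp
    ring
  rw [hφd.deriv] at hp
  have hT0 : T (0 / 4) = R * g 0 / (4 * ((R ^ 2 - C ^ 2 : ℝ) : ℂ)) := by
    simp [hT]
  rw [hT0] at hp
  rw [norm_zero, norm_div, norm_div, norm_mul, norm_mul, norm_mul, norm_pow, norm_div,
    Complex.norm_real, Complex.norm_real, Real.norm_of_nonneg hR.le,
    Real.norm_of_nonneg hD.le] at hp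
  have h4 : ‖(4 : ℂ)‖ = 4 := by simp
  have h16 : ‖(16 : ℂ)‖ = 16 := by simp
  rw [h4, h16] at hp
  set N := ‖((R ^ 2 - C ^ 2 : ℝ) : ℂ) * deriv g 0 - C * g 0 ^ 2‖ with hN
  set D := R ^ 2 - C ^ 2 with hDdef
  have e1 : (1 - (0 : ℝ) ^ 2) * (R / 16 * N / D ^ 2) = R * N / (16 * D ^ 2) := by
    field_simp
    ring
  have e2 : 1 - (R * ‖g 0‖ / (4 * D)) ^ 2 = (16 * D ^ 2 - R ^ 2 * ‖g 0‖ ^ 2) / (16 * D ^ 2) := by
    field_simp
    ring
  rw [e1, e2] at hp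
  exact (div_le_div_iff_of_pos_right (by positivity)).1 hp

end Pool.CSH3
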