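import Mathlib
import Pool.Agent.CSH3.Disc
import Pool.Agent.CSH.Final

/-!
# The sharp third coefficient theorem

For a surface `(L, R)` on the unit disc with `Im R > 0`, `L' ≠ 0` and `|Psi| ≤ 2`, the third
Taylor coefficient of `L` is at most `19/3` times the first one.
-/

set_option autoImplicit false

open Complex Metric Set Filter Topology
open scoped ComplexConjugate

namespace Pool.CSH3

open Pool.Agent.HU85

/-- the analytic core -/
theorem core {χ g : ℂ → ℂ} (dχ : DifferentiableOn ℂ χ (ball 0 1))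
    (dg : DifferentiableOn ℂ g (ball 0 1)) (hχ : ∀ z ∈ ball (0 : ℂ) 1, ‖χ z‖ ≤ 1)
    (h : ∀ z : ℂ, ‖z‖ = 1 / 4 → ‖z * g z - (1 / 15 + (((‖χ z‖ : ℝ) : ℂ) ^ 2
      + z * deriv χ z * conj (χ z)) / (16 - ((‖χ z‖ : ℝ) : ℂ) ^ 2))‖ ≤ 8 / 15)
    (ha : ‖g 0‖ ≤ 2) :
    ‖deriv g 0 + 2 * g 0 ^ 2‖ ≤ 10 + 6 * (1 - ‖χ 0‖) + (1 - ‖χ 0‖) ^ 2 := by
  have h0b : (0 : ℂ) ∈ ball (0 : ℂ) 1 := by simp
  set e : ℝ := 1 - ‖χ 0‖ with he
  have hχ0 := hχ 0 h0b
  have he0 : 0 ≤ e := by rw [he]; linarith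
  have he1 : e ≤ 1 := by rw [he]; linarith [norm_nonneg (χ 0)]
  -- location of `E`
  have hE : ∀ z : ℂ, ‖z‖ = 1 / 4 → ‖(((‖χ z‖ : ℝ) : ℂ) ^ 2
      + z * deriv χ z * conj (χ z)) / (16 - ((‖χ z‖ : ℝ) : ℂ) ^ 2)
      - ((1 / 15 - (3 / 20) * e : ℝ) : ℂ)‖ ≤ (3 / 20) * e := by
    intro z hz
    have hz1 : ‖z‖ < 1 := by rw [hz]; norm_num
    have hzb : z ∈ ball (0 : ℂ) 1 := by simpa using hz1
    have hx1 := hχ z hzb
    refine E_mem hx1 ?_ ?_
    · have h1 := schwarz_pick dχ hχ hz1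
      rw [hz] at h1
      rw [norm_mul, hz]
      linarith
    · have h1 := schwarz_pick_zero dχ hχ hz1
      rw [hz] at h1
      have h2 := pick_identity (χ 0) (χ z)
      have h3 : ‖χ z - χ 0‖ ^ 2 ≤ (1 / 16) * ‖1 - conj (χ 0) * χ z‖ ^ 2 := by
        have := pow_le_pow_left₀ (norm_nonneg _) h1 2
        rw [mul_pow] at this
        linarith
      have h4 : (‖χ 0‖ - ‖χ z‖) ^ 2 ≤ ‖χ z - χ 0‖ ^ 2 := by
        have h5 := abs_norm_sub_norm_le (χ z) (χ 0)
        have h6 : |‖χ z‖ - ‖χ 0‖| ^ 2 ≤ ‖χ z - χ 0‖ ^ 2 :=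
          pow_le_pow_left₀ (abs_nonneg _) h5 2
        rw [sq_abs] at h6
        nlinarith
      refine low_bound (norm_nonneg _) hx1 (norm_nonneg _) hχ0 ?_
      nlinarith
  set C : ℝ := 2 / 15 - (3 / 20) * e with hC
  set R : ℝ := 8 / 15 + (3 / 20) * e with hR
  have hR0 : 0 < R := by rw [hR]; linarith
  have hCR : 2 * |C| < R := by
    have : |C| < R / 2 := by
      rw [abs_lt, hC, hR]
      constructor <;> linarith
    linarith
  have hdisc : ∀ z : ℂ, ‖z‖ = 1 / 4 → ‖z * g z - C‖ ≤ R := by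
    intro z hz
    have h1 := h z hz
    have h2 := hE z hz
    set E : ℂ := (((‖χ z‖ : ℝ) : ℂ) ^ 2
      + z * deriv χ z * conj (χ z)) / (16 - ((‖χ z‖ : ℝ) : ℂ) ^ 2) with hEd
    have h3 : z * g z - C = (z * g z - (1 / 15 + E))
        + (E - ((1 / 15 - (3 / 20) * e : ℝ) : ℂ)) := by
      rw [hC]; push_cast; ring
    rw [h3]
    refine (norm_add_le _ _).trans ?_
    rw [hR]
    linarith
  have hp := pick_disc dg hR0 hCR hdisc
  have hRC : R + C = 2 / 3 := by rw [hC, hR]; ring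
  set D : ℝ := R ^ 2 - C ^ 2 with hD
  have hDv : D = 4 / 15 + e / 5 := by
    rw [hD, hC, hR]; ring
  have hD0 : 0 < D := by rw [hDv]; linarith
  have hDc : ((D : ℝ) : ℂ) ≠ 0 := by exact_mod_cast hD0.ne'
  -- `D (c + 2 a^2) = (D c - C a^2) + (2 D + C) a^2`
  have h1 : ((D : ℝ) : ℂ) * (deriv g 0 + 2 * g 0 ^ 2)
      = (((D : ℝ) : ℂ) * deriv g 0 - C * g 0 ^ 2) + ((2 * D + C : ℝ) : ℂ) * g 0 ^ 2 := by
    push_cast; ring
  have h2 : D * ‖deriv g 0 + 2 * g 0 ^ 2‖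
      ≤ ‖((D : ℝ) : ℂ) * deriv g 0 - C * g 0 ^ 2‖ + (2 * D + C) * ‖g 0‖ ^ 2 := by
    have h3 : 0 ≤ 2 * D + C := by rw [hDv, hC]; linarith
    have h4 : D * ‖deriv g 0 + 2 * g 0 ^ 2‖ = ‖((D : ℝ) : ℂ) * (deriv g 0 + 2 * g 0 ^ 2)‖ := by
      rw [norm_mul, Complex.norm_real, Real.norm_of_nonneg hD0.le]
    rw [h4, h1]
    refine (norm_add_le _ _).trans ?_
    rw [norm_mul, Complex.norm_real, Real.norm_of_nonneg h3, norm_pow]
  set N := ‖((D : ℝ) : ℂ) * deriv g 0 - C * g 0 ^ 2‖ with hN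
  set M := ‖deriv g 0 + 2 * g 0 ^ 2‖ with hM
  have ha2 : ‖g 0‖ ^ 2 ≤ 4 := by nlinarith [norm_nonneg (g 0)]
  -- `R D M ≤ 16 D² + (R (2 D + C) - R²) |a|²` and `2 D + C - R = D / 2`
  have h5 : 2 * D + C - R = D / 2 := by
    have : R - C = (3 / 2) * D := by rw [hDv, hC, hR]; ring
    linarith
  have h6 : R * (D * M) ≤ 16 * D ^ 2 + R * (D / 2) * ‖g 0‖ ^ 2 := by
    have h7 := mul_le_mul_of_nonneg_left h2 hR0.le
    have h8 : R * (D / 2) * ‖g 0‖ ^ 2 = R * (2 * D + C) * ‖g 0‖ ^ 2 - R ^ 2 * ‖g 0‖ ^ 2 := by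
      rw [← h5]; ring
    rw [h8]
    nlinarith
  have h9 : R * M ≤ 16 * D + R * (1 / 2) * ‖g 0‖ ^ 2 := by
    have : D * (R * M) ≤ D * (16 * D + R * (1 / 2) * ‖g 0‖ ^ 2) := by nlinarith
    exact le_of_mul_le_mul_left this hD0
  have h10 : R * M ≤ 16 * D + R * 2 := by
    have : R * (1 / 2) * ‖g 0‖ ^ 2 ≤ R * (1 / 2) * 4 :=
      mul_le_mul_of_nonneg_left ha2 (by positivity)
    linarith
  have h11 : R * M ≤ R * (10 + 6 * e + e ^ 2) := by
    refine h10.trans ?_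
    rw [hDv, hR]
    nlinarith [mul_nonneg he0 he0, mul_nonneg he0 (mul_nonneg he0 he0)]
  exact le_of_mul_le_mul_left h11 hR0

/-- the identity behind the change of variables, pointwise -/
theorem psi_alg {P R1 Rz Rb w wb : ℂ} (h1 : Rz - wb ≠ 0) (h2 : Rb - w ≠ 0) (h3 : Rz - Rb ≠ 0)
    (h4 : w - wb ≠ 0) :
    P + R1 / (Rz - Rb) = (P + R1 / (Rz - wb))
      - ((Rb - wb) / (Rb - w)) * (R1 * (w - wb) / (Rz - wb) ^ 2)
        / (1 - ((Rz - w) / (Rz - wb)) * ((Rb - wb) / (Rb - w))) := by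
  have h5 : 1 - ((Rz - w) / (Rz - wb)) * ((Rb - wb) / (Rb - w))
      = -((Rz - Rb) * (w - wb)) / ((Rz - wb) * (Rb - w)) := by
    field_simp
    ring
  rw [h5]
  field_simp
  ring

/-- **Third coefficient from `|Psi| ≤ 2`.** -/
theorem third_of_psi {L R : ℂ → ℂ} (dL : DifferentiableOn ℂ L (ball 0 1))
    (dR : DifferentiableOn ℂ R (ball 0 1)) (hL : ∀ z ∈ ball (0 : ℂ) 1, deriv L z ≠ 0)
    (hR : ∀ z ∈ ball (0 : ℂ) 1, 0 < (R z).im)
    (hPsi : ∀ z ∈ ball (0 : ℂ) 1, ‖Pool.CSH.Psi L R z‖ ≤ 2) :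
    ‖deriv (deriv (deriv L)) 0‖ ≤ 38 * ‖deriv L 0‖ := by
  have h0b : (0 : ℂ) ∈ ball (0 : ℂ) 1 := by simp
  have h0 : 0 < (R 0).im := hR 0 h0b
  have hden : ∀ z ∈ ball (0 : ℂ) 1, R z - conj (R 0) ≠ 0 := by
    intro z hz h
    have := congrArg Complex.im h
    simp at this
    have h2 := hR z hz
    linarith
  set B : ℂ → ℂ := fun z => (R z - R 0) / (R z - conj (R 0)) with hB
  have hBd : DifferentiableOn ℂ B (ball 0 1) :=
    (dR.sub_const _).div (dR.sub_const _) hden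
  have hB0 : B 0 = 0 := by simp [hB]
  have hB1 : ∀ z ∈ ball (0 : ℂ) 1, ‖B z‖ < 1 := by
    intro z hz
    rw [hB]
    simp only [norm_div]
    rw [div_lt_one (norm_pos_iff.2 (hden z hz))]
    have h1 : ‖R z - R 0‖ ^ 2 < ‖R z - conj (R 0)‖ ^ 2 := by
      rw [← Complex.normSq_eq_norm_sq, ← Complex.normSq_eq_norm_sq]
      simp only [Complex.normSq_apply]
      simp
      nlinarith [hR z hz]
    exact lt_of_pow_lt_pow_left₀ 2 (norm_nonneg _) h1
  set χ : ℂ → ℂ := dslope B 0 with hχdef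
  have dχ : DifferentiableOn ℂ χ (ball 0 1) :=
    (Complex.differentiableOn_dslope (isOpen_ball.mem_nhds h0b)).2 hBd
  have hBχ : B = fun z => z * χ z := by
    funext z
    have h2 := sub_smul_dslope B 0 z
    rw [hB0, sub_zero, sub_zero, smul_eq_mul] at h2
    exact h2.symm
  have hmaps : MapsTo B (ball 0 1) (closedBall (B 0) 1) := by
    intro x hx
    rw [hB0, mem_closedBall_zero_iff]
    exact (hB1 x hx).le
  have hχ1 : ∀ z ∈ ball (0 : ℂ) 1, ‖χ z‖ ≤ 1 := by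
    intro z hz
    have h := norm_dslope_le_div_of_mapsTo_ball hBd hmaps hz
    rwa [div_one] at h
  -- the two formulas for `B'`
  have hw : R 0 - conj (R 0) ≠ 0 := hden 0 h0b
  have hB' : ∀ z ∈ ball (0 : ℂ) 1,
      χ z + z * deriv χ z = deriv R z * (R 0 - conj (R 0)) / (R z - conj (R 0)) ^ 2 := by
    intro z hz
    have h1 : HasDerivAt B (1 * χ z + z * deriv χ z) z := by
      rw [hBχ]
      exact (hasDerivAt_id z).mul (hasDerivAt_of dχ hz)
    have h2 : HasDerivAt B ((deriv R z * (R z - conj (R 0)) - (R z - R 0) * deriv R z)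
        / (R z - conj (R 0)) ^ 2) z :=
      ((hasDerivAt_of dR hz).sub_const _).div ((hasDerivAt_of dR hz).sub_const _) (hden z hz)
    have h3 := h1.unique h2
    rw [one_mul] at h3
    rw [h3]
    congr 1
    ring
  have h1B : ∀ z ∈ ball (0 : ℂ) 1, 1 - z * χ z = (R 0 - conj (R 0)) / (R z - conj (R 0)) := by
    intro z hz
    have h1 : z * χ z = B z := by rw [hBχ]
    rw [h1, hB]
    have := hden z hz
    field_simp
    ring
  -- the function `g`
  set g : ℂ → ℂ := fun z => deriv (deriv L) z / (2 * deriv L z)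
    + deriv R z / (R z - conj (R 0)) with hg
  have dL1 : DifferentiableOn ℂ (deriv L) (ball 0 1) := dL.deriv isOpen_ball
  have dL2 : DifferentiableOn ℂ (deriv (deriv L)) (ball 0 1) := dL1.deriv isOpen_ball
  have dR1 : DifferentiableOn ℂ (deriv R) (ball 0 1) := dR.deriv isOpen_ball
  have dg : DifferentiableOn ℂ g (ball 0 1) :=
    (dL2.div (dL1.const_mul 2) (fun z hz => mul_ne_zero two_ne_zero (hL z hz))).add
      (dR1.div (dR.sub_const _) hden)
  -- `Psi` in the new variables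
  have hpsi : ∀ z ∈ ball (0 : ℂ) 1, Pool.CSH.Psi L R z = ((1 - ‖z‖ ^ 2 : ℝ) : ℂ)
      * (g z - conj (B z) * (χ z + z * deriv χ z) / (1 - B z * conj (B z))) - conj z := by
    intro z hz
    have hRz : 0 < (R z).im := hR z hz
    have e1 : 2 * I * (((R z).im : ℝ) : ℂ) = R z - conj (R z) := by
      apply Complex.ext <;> simp
      ring
    have e2 : conj (B z) = (conj (R z) - conj (R 0)) / (conj (R z) - R 0) := by
      rw [hB]; simp
    have e3 : B z = (R z - R 0) / (R z - conj (R 0)) := by rw [hB]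
    have n1 := hden z hz
    have n2 : conj (R z) - R 0 ≠ 0 := by
      intro h
      have := congrArg Complex.im h
      simp at this
      linarith
    have n3 : R z - conj (R z) ≠ 0 := by
      intro h
      have := congrArg Complex.im h
      simp at this
      linarith
    rw [Pool.CSH.Psi, e1, hB' z hz, e2, e3, psi_alg n1 n2 n3 hw]
  have ha : ‖g 0‖ ≤ 2 := by
    have h1 := hPsi 0 h0b
    rw [hpsi 0 h0b, hB0] at h1
    simpa using h1
  have hh : ∀ z : ℂ, ‖z‖ = 1 / 4 → ‖z * g z - (1 / 15 + (((‖χ z‖ : ℝ) : ℂ) ^ 2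
      + z * deriv χ z * conj (χ z)) / (16 - ((‖χ z‖ : ℝ) : ℂ) ^ 2))‖ ≤ 8 / 15 := by
    intro z hz
    have hzb : z ∈ ball (0 : ℂ) 1 := by
      rw [mem_ball_zero_iff, hz]; norm_num
    have h1 := hPsi z hzb
    have hzz : z * conj z = 1 / 16 := by
      rw [Complex.mul_conj, Complex.normSq_eq_norm_sq, hz]; norm_num
    have hcc : ((‖χ z‖ : ℝ) : ℂ) ^ 2 = χ z * conj (χ z) := by
      rw [Complex.mul_conj, Complex.normSq_eq_norm_sq]; push_cast; ring
    have hx : ‖χ z‖ ≤ 1 := hχ1 z hzb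
    have hne : (16 : ℂ) - χ z * conj (χ z) ≠ 0 := by
      rw [← hcc]
      have : (16 - ((‖χ z‖ : ℝ) : ℂ) ^ 2) = ((16 - ‖χ z‖ ^ 2 : ℝ) : ℂ) := by push_cast; ring
      rw [this]
      have h5 : 0 < 16 - ‖χ z‖ ^ 2 := by nlinarith [norm_nonneg (χ z)]
      exact_mod_cast h5.ne'
    have hBc : conj (B z) = conj z * conj (χ z) := by rw [hBχ]; simp
    have hBz : B z = z * χ z := by rw [hBχ]
    have hkey : z * g z - (1 / 15 + (((‖χ z‖ : ℝ) : ℂ) ^ 2
      + z * deriv χ z * conj (χ z)) / (16 - ((‖χ z‖ : ℝ) : ℂ) ^ 2))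
        = (16 / 15) * z * Pool.CSH.Psi L R z := by
      rw [hpsi z hzb, hcc, hBc, hBz, hz]
      have hq : z * (conj z * conj (χ z) * (χ z + z * deriv χ z)
            / (1 - z * χ z * (conj z * conj (χ z))))
          = (χ z * conj (χ z) + z * deriv χ z * conj (χ z)) / (16 - χ z * conj (χ z)) := by
        have hne' : 1 - z * χ z * (conj z * conj (χ z)) ≠ 0 := by
          have : 1 - z * χ z * (conj z * conj (χ z)) = (16 - χ z * conj (χ z)) / 16 := by
            linear_combination (-(χ z * conj (χ z))) * hzz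
          rw [this]
          exact div_ne_zero hne (by norm_num)
        rw [← mul_div_assoc, div_eq_div_iff hne' hne]
        linear_combination ((conj (χ z) * (χ z + z * deriv χ z)) * (16 - χ z * conj (χ z))
          + (χ z * conj (χ z) + z * deriv χ z * conj (χ z)) * (χ z * conj (χ z))) * hzz
      rw [← hq]
      push_cast
      linear_combination (16 / 15) * hzz
    rw [hkey, norm_mul, norm_mul, hz]
    have h16 : ‖(16 / 15 : ℂ)‖ = 16 / 15 := by
      rw [norm_div]; simp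
    rw [h16]
    linarith
  have hcore := core dχ dg hχ1 hh ha
  -- the coefficient
  set S : ℂ → ℂ := fun z => deriv R z / (R z - conj (R 0)) with hS
  have hSχ : ∀ z ∈ ball (0 : ℂ) 1, S z = (χ z + z * deriv χ z) / (1 - z * χ z) := by
    intro z hz
    have n1 := hden z hz
    rw [hB' z hz, h1B z hz, hS]
    field_simp
  have hL2 : ∀ z ∈ ball (0 : ℂ) 1, deriv (deriv L) z
      = 2 * deriv L z * (g z - (χ z + z * deriv χ z) / (1 - z * χ z)) := by
    intro z hz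
    rw [← hSχ z hz, hg, hS]
    have := hL z hz
    field_simp
    ring
  have dχ1 : DifferentiableOn ℂ (deriv χ) (ball 0 1) := dχ.deriv isOpen_ball
  have hd3 : deriv (deriv (deriv L)) 0 = deriv L 0 * (2 * (deriv g 0 + 2 * g 0 ^ 2)
      - 8 * g 0 * χ 0 - 4 * deriv χ 0 + 2 * χ 0 ^ 2) := by
    have h1 : HasDerivAt (fun z => 2 * deriv L z * (g z - (χ z + z * deriv χ z)
        / (1 - z * χ z))) _ 0 :=
      ((hasDerivAt_of dL1 h0b).const_mul 2).mul ((hasDerivAt_of dg h0b).sub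
        (((hasDerivAt_of dχ h0b).add ((hasDerivAt_id 0).mul (hasDerivAt_of dχ1 h0b))).div
          (((hasDerivAt_id 0).mul (hasDerivAt_of dχ h0b)).const_sub 1) (by simp)))
    have h2 : deriv (deriv L) =ᶠ[𝓝 0] (fun z => 2 * deriv L z * (g z - (χ z + z * deriv χ z)
        / (1 - z * χ z))) := by
      filter_upwards [isOpen_ball.mem_nhds h0b] with z hz
      exact hL2 z hz
    rw [h2.deriv_eq, h1.deriv]
    have h3 := hL2 0 h0b
    simp at h3 ⊢
    rw [h3]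
    ring
  have hχ'0 : ‖deriv χ 0‖ ≤ 1 - ‖χ 0‖ ^ 2 := by
    have := schwarz_pick dχ hχ1 (z := 0) (by simp)
    simpa using this
  rw [hd3, norm_mul, mul_comm]
  refine mul_le_mul_of_nonneg_right ?_ (norm_nonneg _)
  have hA : ‖2 * (deriv g 0 + 2 * g 0 ^ 2) - 8 * g 0 * χ 0 - 4 * deriv χ 0 + 2 * χ 0 ^ 2‖
      ≤ 2 * ‖deriv g 0 + 2 * g 0 ^ 2‖ + 8 * (‖g 0‖ * ‖χ 0‖) + 4 * ‖deriv χ 0‖
        + 2 * ‖χ 0‖ ^ 2 := by
    refine (norm_add_le _ _).trans ?_
    refine add_le_add ((norm_sub_le _ _).trans (add_le_add ((norm_sub_le _ _).trans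
      (add_le_add ?_ ?_)) ?_)) ?_
    · rw [norm_mul]; simp
    · rw [norm_mul, norm_mul]; simp [mul_assoc]
    · rw [norm_mul]; simp
    · rw [norm_mul, norm_pow]; simp
  refine hA.trans ?_
  have hβ0 := norm_nonneg (χ 0)
  have hβ1 := hχ1 0 h0b
  have hm : ‖g 0‖ * ‖χ 0‖ ≤ 2 * ‖χ 0‖ := mul_le_mul_of_nonneg_right ha hβ0
  nlinarith

end Pool.CSH3
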