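import Mathlib
import Pool.Agent.CSH3.Third
import Pool.Agent.CSH.FinN
import Pool.Agent.CSH.Final

/-!
# Sharp third coefficient in `S_H`: assembly
-/

set_option autoImplicit false

open Complex Metric Set
open scoped ComplexConjugate Nat

namespace Pool.CSH3

theorem polyBound3 : Pool.Agent.CSH.PolyBoundN 3 (19 / 3) := by
  intro r p q hr _ _ hlt hinj
  obtain ⟨L, F, G, R, hA, hc⟩ := Pool.CSH.lift_exists (h := p) (g := q) (r := r)
    ⟨hr, hinj, hlt⟩ 2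
  have hS : Pool.CSH.Surf (ball 0 1) L F G R :=
    ⟨hA.dL, hA.dF, hA.dG, hA.dR, hA.hF, hA.hG, hA.hR, hA.hL⟩
  have hK : Pool.CSH.Achr (ball 0 1) L F G := fun x hx y hy hxy => hA.hK x hx y hy hxy
  have h1 := third_of_psi hA.dL hA.dR hA.hL hA.hR (Pool.CSH.psi_le_two hS hK)
  have c3 := hc 2 le_rfl
  have c1 := hc 0 (by norm_num)
  rw [iteratedDeriv_succ, iteratedDeriv_succ, iteratedDeriv_one] at c3
  rw [zero_add, iteratedDeriv_one] at c1
  rw [c3, c1] at h1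
  have e1 : (((2 + 1) ! : ℕ) : ℂ) = 6 := by norm_num [Nat.factorial]
  have e2 : (((1 : ℕ) ! : ℕ) : ℂ) = 1 := by norm_num
  rw [e1, e2, one_mul, norm_mul, Polynomial.coeff_sub, Polynomial.coeff_sub] at h1
  have h6 : ‖(6 : ℂ)‖ = 6 := by simp
  rw [h6] at h1
  have : (2 + 1 : ℕ) = 3 := rfl
  linarith

/-- **Sharp third coefficient theorem** for univalent harmonic maps. -/
theorem third_coeff (h g : ℂ → ℂ) (dh : DifferentiableOn ℂ h (ball (0 : ℂ) 1))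
    (dg : DifferentiableOn ℂ g (ball (0 : ℂ) 1)) (h1 : deriv h 0 = 1)
    (hlt : ∀ z ∈ ball (0 : ℂ) 1, ‖deriv g z‖ < ‖deriv h z‖)
    (hinj : InjOn (fun z => h z + conj (g z)) (ball (0 : ℂ) 1)) :
    ‖iteratedDeriv 3 h 0‖ / 6 ≤ 19 / 3 ∧
    ‖iteratedDeriv 3 g 0‖ / 6 ≤ 19 / 3 ∧
    ∀ ε : ℂ, ‖ε‖ = 1 → ‖iteratedDeriv 3 h 0 + ε * iteratedDeriv 3 g 0‖ / 6
      ≤ 19 / 3 * ‖1 + ε * deriv g 0‖ := by
  have := Pool.Agent.CSH.final_of_polyBoundN (by norm_num) polyBound3 h g dh dg h1 hlt hinj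
  have e : ((3 ! : ℕ) : ℝ) = 6 := by norm_num [Nat.factorial]
  rw [e] at this
  exact this

end Pool.CSH3
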